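import Pool.Agent.Helper417.Mer.ClosedBad

/-!
# MP_bf64af_an: the meromorphic extension property is not inherited by the central fibre

All definitions are in `Pool/Agent/Helper417/Mer/Defs.lean`.

The family is the quotient of the open subset `{(x, s, y) ∈ ℂ² × ℂ × ℂ² : y ≠ 0, |det(x,y)| < 1}`
of `ℂ⁵` by a group `ℤ ⋉ ℤ[i]²` of holomorphic transformations preserving `det(x,y)`, and the
projection is `det(x,y)`. For `t ≠ 0` the universal cover `{det(x,y) = t} = SL₂(ℂ) × ℂ` of the
fibre over `t` is closed in `ℂ⁵`; the fibre over `0` contains the Hopf surface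
`{x = 0, s = 0, y ≠ 0} / (y ↦ φ y)`, `φ` the golden ratio.
-/

namespace Pool.Agent.Results.MP_bf64af_an.CentralFibre

open Set Metric
open Pool.Agent.Helper417.Mer

/-- There is a complex deformation `π : M → Δ` (of compact complex manifolds of dimension four)
such that every fibre over `t ≠ 0` has the meromorphic extension property, and the central fibre
does not. -/
theorem result :
    ∃ (M : Type) (_ : TopologicalSpace M) (_ : ChartedSpace (ℂ × ℂ × ℂ × ℂ × ℂ) M) (π : M → ℂ),
      IsComplexDeformation (ℂ × ℂ × ℂ × ℂ × ℂ) π ∧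
      (∀ t ∈ ball (0 : ℂ) 1, t ≠ 0 →
        HasMeromorphicExtension (ℂ × ℂ × ℂ × ℂ × ℂ) (π ⁻¹' {t})) ∧
      ¬ HasMeromorphicExtension (ℂ × ℂ × ℂ × ℂ × ℂ) (π ⁻¹' {0}) := by
  have hT2 := Closed.fam.t2
  exact ⟨Closed.fam.Tot, inferInstance, Closed.fam.quot.cs, Closed.fam.proj,
    Closed.fam.isComplexDeformation,
    fun t _ ht => hasMeromorphicExtension (Closed.extClosed ht),
    Closed.not_hasMeromorphicExtension⟩

end Pool.Agent.Results.MP_bf64af_an.CentralFibre
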